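import Mathlib
import Pool.Agent.H27.RC.Stmts

/-!
Project RC (MP_c00d13_an), module COMB: a totally nonsingular band matrix.
-/

namespace Pool.Agent.H12.RC

open Pool.Agent.H27.RC

theorem exists_lower (s : Finset ℤ) : ∃ M, ∀ i ∈ s, M ≤ i := by
  obtain ⟨M, hM⟩ := s.bddBelow
  exact ⟨M, fun i hi => hM (by simpa using hi)⟩

/-- Hall matching, monotone version. -/
theorem exists_matching (K : ℕ) (U : Finset ℤ) : ∀ W : Finset ℤ,
    (∀ a b : ℤ, a ≤ b → (U ∩ Finset.Icc a b).card ≤ (W ∩ Finset.Icc a (b + K)).card) →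
    ∃ m : ℤ → ℤ, (∀ u ∈ U, m u ∈ W ∧ u ≤ m u ∧ m u ≤ u + K) ∧
      ∀ u ∈ U, ∀ v ∈ U, u < v → m u < m v := by
  induction U using Finset.induction_on_min with
  | empty =>
    intro W _
    exact ⟨id, by simp, by simp⟩
  | insert a s ha ih =>
    intro W hW
    have hne : (W ∩ Finset.Icc a (a + K)).Nonempty := by
      have h1 := hW a a le_rfl
      rw [← Finset.card_pos]
      refine lt_of_lt_of_le ?_ h1
      rw [Finset.card_pos]
      exact ⟨a, by simp⟩
    set v₁ := (W ∩ Finset.Icc a (a + K)).min' hne with hv₁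
    have hv₁mem : v₁ ∈ W ∩ Finset.Icc a (a + K) := Finset.min'_mem _ _
    have hv₁min : ∀ w ∈ W, a ≤ w → w ≤ a + K → v₁ ≤ w := by
      intro w hw h1 h2
      exact Finset.min'_le _ _ (by simp [hw, h1, h2])
    rw [Finset.mem_inter, Finset.mem_Icc] at hv₁mem
    obtain ⟨hv1, hv2, hv3⟩ := hv₁mem
    have ha' : a ∉ s := fun h => lt_irrefl _ (ha a h)
    obtain ⟨m, hm1, hm2⟩ := ih (W.filter (fun w => v₁ < w)) (by
      intro c b hcb
      by_cases hc : v₁ < c
      · refine le_trans (Finset.card_le_card ?_) (le_trans (hW c b hcb) (Finset.card_le_card ?_))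
        · intro x hx
          simp only [Finset.mem_inter, Finset.mem_Icc, Finset.mem_insert] at hx ⊢
          exact ⟨Or.inr hx.1, hx.2⟩
        · intro x hx
          simp only [Finset.mem_inter, Finset.mem_Icc, Finset.mem_filter] at hx ⊢
          exact ⟨⟨hx.1, by omega⟩, hx.2⟩
      · push Not at hc
        by_cases hb : a < b
        · have h1 := hW a b hb.le
          have h2 : (s ∩ Finset.Icc c b).card + 1 ≤ (insert a s ∩ Finset.Icc a b).card := by
            have : insert a (s ∩ Finset.Icc c b) ⊆ insert a s ∩ Finset.Icc a b := by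
              intro x hx
              simp only [Finset.mem_inter, Finset.mem_Icc, Finset.mem_insert] at hx ⊢
              rcases hx with rfl | hx
              · exact ⟨Or.inl rfl, le_rfl, hb.le⟩
              · exact ⟨Or.inr hx.1, (ha _ hx.1).le, hx.2.2⟩
            refine le_trans (le_of_eq ?_) (Finset.card_le_card this)
            rw [Finset.card_insert_of_notMem]
            simp [ha']
          have h3 : (W ∩ Finset.Icc a (b + K)).card ≤
              (W.filter (fun w => v₁ < w) ∩ Finset.Icc c (b + K)).card + 1 := by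
            have : W ∩ Finset.Icc a (b + K) ⊆
                insert v₁ (W.filter (fun w => v₁ < w) ∩ Finset.Icc c (b + K)) := by
              intro x hx
              simp only [Finset.mem_inter, Finset.mem_Icc, Finset.mem_insert,
                Finset.mem_filter] at hx ⊢
              by_cases hx1 : x ≤ v₁
              · left
                have := hv₁min x hx.1 hx.2.1 (by omega)
                omega
              · right
                exact ⟨⟨hx.1, by omega⟩, by omega, hx.2.2⟩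
            refine le_trans (Finset.card_le_card this) ?_
            exact Finset.card_insert_le _ _
          omega
        · have : s ∩ Finset.Icc c b = ∅ := by
            ext x
            simp only [Finset.mem_inter, Finset.mem_Icc, Finset.notMem_empty, iff_false,
              not_and]
            intro hx h1 h2
            have := ha x hx
            omega
          rw [this]
          simp)
    refine ⟨fun u => if u = a then v₁ else m u, ?_, ?_⟩
    · intro u hu
      rw [Finset.mem_insert] at hu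
      by_cases h : u = a
      · subst h
        simp only [if_true]
        exact ⟨hv1, hv2, hv3⟩
      · simp only [h, if_false]
        have hu' : u ∈ s := hu.resolve_left h
        have := hm1 u hu'
        rw [Finset.mem_filter] at this
        exact ⟨this.1.1, this.2⟩
    · intro u hu v hv huv
      rw [Finset.mem_insert] at hu hv
      by_cases h : u = a
      · have hva : v ≠ a := by omega
        have hv' : v ∈ s := hv.resolve_left hva
        simp only [h, if_true, hva, if_false]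
        have := hm1 v hv'
        rw [Finset.mem_filter] at this
        exact this.1.2
      · have hu' : u ∈ s := hu.resolve_left h
        have hva : v ≠ a := by
          have := ha u hu'
          omega
        have hv' : v ∈ s := hv.resolve_left hva
        simp only [h, if_false, hva]
        exact hm2 u hu' v hv' huv

/-- A slope function. -/
theorem exists_slope (U : Finset ℤ) (m : ℤ → ℤ) (hm : ∀ u ∈ U, ∀ v ∈ U, u < v → m u < m v) :
    ∃ s : ℤ → ℤ, ∀ y, (∀ u ∈ U, m u ≤ y → 2 * u + 1 ≤ s y) ∧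
      (∀ u ∈ U, y < m u → s y ≤ 2 * u - 1) := by
  have : ∀ y : ℤ, ∃ s : ℤ, (∀ u ∈ U, m u ≤ y → 2 * u + 1 ≤ s) ∧
      (∀ u ∈ U, y < m u → s ≤ 2 * u - 1) := by
    intro y
    by_cases hne : (U.filter (fun u => m u ≤ y)).Nonempty
    · set u₀ := (U.filter (fun u => m u ≤ y)).max' hne with hu₀
      have hmem : u₀ ∈ U.filter (fun u => m u ≤ y) := Finset.max'_mem _ _
      rw [Finset.mem_filter] at hmem
      refine ⟨2 * u₀ + 1, ?_, ?_⟩
      · intro u hu h
        have : u ≤ u₀ := Finset.le_max' _ _ (by simp [hu, h])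
        omega
      · intro u hu h
        have : u₀ < u := by
          by_contra hcon
          push Not at hcon
          rcases hcon.lt_or_eq with h1 | h1
          · have := hm u hu u₀ hmem.1 h1
            omega
          · rw [h1] at h
            omega
        omega
    · rw [Finset.not_nonempty_iff_eq_empty, Finset.filter_eq_empty_iff] at hne
      obtain ⟨M, hM⟩ := exists_lower U
      refine ⟨2 * M - 1, ?_, ?_⟩
      · intro u hu h
        exact absurd h (hne hu)
      · intro u hu _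
        have := hM u hu
        omega
  choose s hs using this
  exact ⟨s, hs⟩

/-- Potentials for the assignment problem with cost `(v - u)²`. -/
theorem exists_potential (U : Finset ℤ) (m : ℤ → ℤ) (hm : ∀ u ∈ U, ∀ v ∈ U, u < v → m u < m v) :
    ∃ a b : ℤ → ℤ, (∀ u, a u + b u = (m u - u) ^ 2) ∧
      ∀ u ∈ U, ∀ v ∈ U, u ≠ v → a u + b v + 1 ≤ (m u - v) ^ 2 := by
  obtain ⟨s, hs⟩ := exists_slope U m hm
  obtain ⟨x₀, hx₀⟩ := exists_lower (U.image m)
  -- primitive
  set f : ℤ → ℤ := fun x => ∑ k ∈ Finset.range (x - x₀).toNat, s (x₀ + k) with hf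
  have hstep : ∀ x, x₀ ≤ x → f (x + 1) = f x + s x := by
    intro x hx
    simp only [hf]
    have h1 : (x + 1 - x₀).toNat = (x - x₀).toNat + 1 := by omega
    rw [h1, Finset.sum_range_succ]
    congr 2
    omega
  have hup : ∀ u ∈ U, ∀ x, m u + 1 ≤ x → f (m u) + 2 * u * (x - m u) + 1 ≤ f x := by
    intro u hu x hx
    have hmu : x₀ ≤ m u := hx₀ _ (Finset.mem_image_of_mem _ hu)
    induction x, hx using Int.leInduction with
    | base =>
      rw [hstep _ hmu]
      have := (hs (m u)).1 u hu le_rfl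
      linarith
    | succ x hx ih =>
      rw [hstep _ (by omega)]
      have := (hs x).1 u hu (by omega)
      nlinarith
  have hdown : ∀ u ∈ U, ∀ n : ℕ, x₀ ≤ m u - (n + 1) →
      f (m u) + 2 * u * (-(n + 1)) + 1 ≤ f (m u - (n + 1)) := by
    intro u hu n
    induction n with
    | zero =>
      intro h
      have h1 := hstep (m u - (((0 : ℕ) : ℤ) + 1)) h
      have h2 : m u - (((0 : ℕ) : ℤ) + 1) + 1 = m u := by push_cast; ring
      rw [h2] at h1
      have := (hs (m u - (((0 : ℕ) : ℤ) + 1))).2 u hu (by push_cast; omega)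
      push_cast at *
      linarith
    | succ n ih =>
      intro h
      have ih' := ih (by push_cast at h; omega)
      have h1 := hstep (m u - (((n + 1 : ℕ) : ℤ) + 1)) h
      have h2 : m u - (((n + 1 : ℕ) : ℤ) + 1) + 1 = m u - ((n : ℤ) + 1) := by push_cast; ring
      rw [h2] at h1
      have := (hs (m u - (((n + 1 : ℕ) : ℤ) + 1))).2 u hu (by push_cast; omega)
      push_cast at *
      linarith
  have hkey : ∀ u ∈ U, ∀ v ∈ U, u ≠ v → f (m v) + 2 * v * (m u - m v) + 1 ≤ f (m u) := by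
    intro u hu v hv huv
    rcases lt_or_gt_of_ne huv with h | h
    · -- u < v, m u < m v
      have h1 := hm u hu v hv h
      have hmu : x₀ ≤ m u := hx₀ _ (Finset.mem_image_of_mem _ hu)
      have h2 := hdown v hv (m v - m u - 1).toNat (by omega)
      have h3 : (((m v - m u - 1).toNat : ℤ) + 1) = m v - m u := by omega
      rw [h3] at h2
      have h4 : m v - (m v - m u) = m u := by ring
      rw [h4] at h2
      have h5 : -(m v - m u) = m u - m v := by ring
      rw [h5] at h2
      exact h2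
    · have h1 := hm v hv u hu h
      exact hup v hv (m u) (by omega)
  refine ⟨fun u => (m u) ^ 2 - f (m u), fun u => u ^ 2 - 2 * m u * u + f (m u), ?_, ?_⟩
  · intro u
    ring
  · intro u hu v hv huv
    have := hkey u hu v hv huv
    nlinarith

/-- The chain relation of module COMB. -/
def Conn (K : ℕ) (U : Finset ℤ) (u v : ℤ) : Prop :=
  ∀ a : ℤ, u ≤ a → a < v → ∃ w ∈ U, a < w ∧ w ≤ a + K

theorem comb : COMBStmt := by
  intro K R
  classical
  set ρ : ℝ := 1 / (2 * (2 * R + 1)) with hρ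
  have hρ0 : 0 < ρ := by positivity
  have hρ1 : ρ ≤ 1 := by
    rw [hρ, div_le_one (by positivity)]
    have : (0 : ℝ) ≤ R := Nat.cast_nonneg R
    linarith
  have hρR : (2 * R + 1) * ρ = 1 / 2 := by
    rw [hρ]
    field_simp
  set δ : ℝ := ρ ^ ((R + K) ^ 2) / 2 with hδ
  have hδ0 : 0 < δ := by positivity
  refine ⟨fun k => ρ ^ (k ^ 2), δ ^ 2 / (2 * R + 1), by positivity, ?_⟩
  intro U W hchain hHall ξ
  obtain ⟨m, hm1, hm2⟩ := exists_matching K U W hHall
  obtain ⟨a, b, hab, hab'⟩ := exists_potential U m hm2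
  -- the rows
  set row : ℤ → ℂ := fun v => ∑ u ∈ U.filter (fun u => u ≤ v ∧ v ≤ u + K),
    ((ρ ^ ((v - u).toNat ^ 2) : ℝ) : ℂ) * ξ u with hrow
  change δ ^ 2 / (2 * R + 1) * ∑ u ∈ U, ‖ξ u‖ ^ 2 ≤ ∑ v ∈ W, ‖row v‖ ^ 2
  have hzpow : ∀ x : ℤ, 0 ≤ x → ρ ^ (x.toNat ^ 2) = ρ ^ (x ^ 2) := by
    intro x hx
    have h1 : x ^ 2 = ((x.toNat ^ 2 : ℕ) : ℤ) := by
      push_cast
      rw [Int.toNat_of_nonneg hx]
    rw [h1, zpow_natCast]
  -- the main estimate
  have hmain : ∀ j ∈ U, ∃ i ∈ U, |i - j| ≤ R ∧ δ * ‖ξ j‖ ≤ ‖row (m i)‖ := by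
    intro j hj
    set C : Finset ℤ := U.filter (fun u => (u ≤ j ∧ Conn K U u j) ∨ (j ≤ u ∧ Conn K U j u)) with hC
    have hCU : C ⊆ U := Finset.filter_subset _ _
    have hCR : ∀ u ∈ C, |u - j| ≤ R := by
      intro u hu
      rw [hC, Finset.mem_filter] at hu
      rcases hu.2 with ⟨h1, h2⟩ | ⟨h1, h2⟩
      · have := hchain u hu.1 j hj h1 h2
        rw [abs_le]
        constructor <;> omega
      · have := hchain j hj u hu.1 h1 h2
        rw [abs_le]
        constructor <;> omega
    have hjC : j ∈ C := by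
      rw [hC, Finset.mem_filter]
      exact ⟨hj, Or.inl ⟨le_rfl, fun a h1 h2 => absurd h1 (not_le.mpr h2)⟩⟩
    have hclosed : ∀ u ∈ C, ∀ v ∈ U, v ≤ u + K → u ≤ v + K → v ∈ C := by
      intro u hu v hv h1 h2
      rw [hC, Finset.mem_filter] at hu ⊢
      obtain ⟨huU, hu⟩ := hu
      refine ⟨hv, ?_⟩
      rcases hu with ⟨h3, h4⟩ | ⟨h3, h4⟩
      · by_cases h5 : v ≤ j
        · left
          refine ⟨h5, fun x hx1 hx2 => ?_⟩
          by_cases h6 : u ≤ x
          · exact h4 x h6 hx2
          · exact ⟨u, huU, by omega, by omega⟩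
        · right
          refine ⟨by omega, fun x hx1 hx2 => ⟨v, hv, hx2, by omega⟩⟩
      · by_cases h5 : j ≤ v
        · right
          refine ⟨h5, fun x hx1 hx2 => ?_⟩
          by_cases h6 : x < u
          · exact h4 x hx1 h6
          · exact ⟨v, hv, hx2, by omega⟩
        · left
          refine ⟨by omega, fun x hx1 hx2 => ⟨j, hj, hx2, by omega⟩⟩
    have hCcard : (C.card : ℝ) ≤ 2 * R + 1 := by
      have h1 : C ⊆ Finset.Icc (j - R) (j + R) := by
        intro u hu
        have := hCR u hu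
        rw [abs_le] at this
        rw [Finset.mem_Icc]
        constructor <;> omega
      have h2 := Finset.card_le_card h1
      rw [Int.card_Icc] at h2
      have h3 : (j + R + 1 - (j - R)).toNat = 2 * R + 1 := by omega
      rw [h3] at h2
      exact_mod_cast h2
    obtain ⟨i, hiC, hmax⟩ := Finset.exists_max_image C (fun u => ρ ^ (b u) * ‖ξ u‖) ⟨j, hjC⟩
    have hiU : i ∈ U := hCU hiC
    refine ⟨i, hiU, hCR i hiC, ?_⟩
    obtain ⟨-, hmi1, hmi2⟩ := hm1 i hiU
    have hset : U.filter (fun u => u ≤ m i ∧ m i ≤ u + K) =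
        insert i ((C.erase i).filter (fun u => u ≤ m i ∧ m i ≤ u + K)) := by
      ext u
      simp only [Finset.mem_filter, Finset.mem_insert, Finset.mem_erase]
      constructor
      · rintro ⟨h1, h2, h3⟩
        by_cases h4 : u = i
        · exact Or.inl h4
        · exact Or.inr ⟨⟨h4, hclosed i hiC u h1 (by omega) (by omega)⟩, h2, h3⟩
      · rintro (rfl | ⟨⟨h1, h2⟩, h3, h4⟩)
        · exact ⟨hiU, hmi1, hmi2⟩
        · exact ⟨hCU h2, h3, h4⟩
    have hrowi : row (m i) = ((ρ ^ ((m i - i) ^ 2) : ℝ) : ℂ) * ξ i +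
        ∑ u ∈ (C.erase i).filter (fun u => u ≤ m i ∧ m i ≤ u + K),
          ((ρ ^ ((m i - u) ^ 2) : ℝ) : ℂ) * ξ u := by
      simp only [hrow]
      rw [hset, Finset.sum_insert (by simp), hzpow _ (by omega)]
      congr 1
      refine Finset.sum_congr rfl fun u hu => ?_
      rw [Finset.mem_filter] at hu
      rw [hzpow _ (by omega)]
    have hbound : ∀ u ∈ (C.erase i).filter (fun u => u ≤ m i ∧ m i ≤ u + K),
        ‖((ρ ^ ((m i - u) ^ 2) : ℝ) : ℂ) * ξ u‖ ≤ ρ * (ρ ^ (a i) * (ρ ^ (b i) * ‖ξ i‖)) := by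
      intro u hu
      rw [Finset.mem_filter, Finset.mem_erase] at hu
      obtain ⟨⟨hui, huC⟩, -⟩ := hu
      rw [norm_mul, Complex.norm_real, Real.norm_eq_abs, abs_of_pos (zpow_pos hρ0 _)]
      have h1 := hab' i hiU u (hCU huC) (Ne.symm hui)
      have h2 : ρ ^ ((m i - u) ^ 2) ≤ ρ ^ (a i + b u + 1) :=
        zpow_le_zpow_right_of_le_one₀ hρ0 hρ1 h1
      have h3 := hmax u huC
      calc ρ ^ ((m i - u) ^ 2) * ‖ξ u‖ ≤ ρ ^ (a i + b u + 1) * ‖ξ u‖ :=
            mul_le_mul_of_nonneg_right h2 (norm_nonneg _)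
        _ = ρ * (ρ ^ (a i) * (ρ ^ (b u) * ‖ξ u‖)) := by
            rw [zpow_add₀ hρ0.ne', zpow_add₀ hρ0.ne', zpow_one]
            ring
        _ ≤ ρ * (ρ ^ (a i) * (ρ ^ (b i) * ‖ξ i‖)) := by
            refine mul_le_mul_of_nonneg_left ?_ hρ0.le
            exact mul_le_mul_of_nonneg_left h3 (zpow_pos hρ0 _).le
    have hsum : ‖∑ u ∈ (C.erase i).filter (fun u => u ≤ m i ∧ m i ≤ u + K),
          ((ρ ^ ((m i - u) ^ 2) : ℝ) : ℂ) * ξ u‖ ≤
        1 / 2 * (ρ ^ (a i) * (ρ ^ (b i) * ‖ξ i‖)) := by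
      refine le_trans (norm_sum_le_of_le _ hbound) ?_
      rw [Finset.sum_const, nsmul_eq_mul]
      have h1 : ((((C.erase i).filter (fun u => u ≤ m i ∧ m i ≤ u + K)).card : ℕ) : ℝ) ≤
          2 * R + 1 := by
        refine le_trans ?_ hCcard
        exact_mod_cast le_trans (Finset.card_filter_le _ _) (Finset.card_erase_le)
      have h2 : (0 : ℝ) ≤ ρ ^ (a i) * (ρ ^ (b i) * ‖ξ i‖) := by positivity
      rw [← mul_assoc]
      refine mul_le_mul_of_nonneg_right ?_ h2
      rw [← hρR]
      exact mul_le_mul_of_nonneg_right h1 hρ0.le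
    have hfirst : ‖((ρ ^ ((m i - i) ^ 2) : ℝ) : ℂ) * ξ i‖ = ρ ^ (a i) * (ρ ^ (b i) * ‖ξ i‖) := by
      rw [norm_mul, Complex.norm_real, Real.norm_eq_abs, abs_of_pos (zpow_pos hρ0 _), ← hab i,
        zpow_add₀ hρ0.ne']
      ring
    have hlow : 1 / 2 * (ρ ^ (a i) * (ρ ^ (b i) * ‖ξ i‖)) ≤ ‖row (m i)‖ := by
      rw [hrowi]
      have h1 := norm_sub_le_norm_add (((ρ ^ ((m i - i) ^ 2) : ℝ) : ℂ) * ξ i)
        (∑ u ∈ (C.erase i).filter (fun u => u ≤ m i ∧ m i ≤ u + K),
          ((ρ ^ ((m i - u) ^ 2) : ℝ) : ℂ) * ξ u)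
      rw [hfirst] at h1
      linarith
    refine le_trans ?_ hlow
    have h3 := hmax j hjC
    have h4 : ρ ^ ((R + K) ^ 2) * ‖ξ j‖ ≤ ρ ^ (a i) * (ρ ^ (b j) * ‖ξ j‖) := by
      rw [← mul_assoc, ← zpow_add₀ hρ0.ne']
      refine mul_le_mul_of_nonneg_right ?_ (norm_nonneg _)
      have h5 : a i + b j ≤ (((R + K) ^ 2 : ℕ) : ℤ) := by
        have h6 : a i + b j ≤ (m i - j) ^ 2 := by
          by_cases h : i = j
          · rw [← h, hab i]
          · have := hab' i hiU j hj h
            omega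
        have h7 : |m i - j| ≤ ((R + K : ℕ) : ℤ) := by
          have := hCR i hiC
          rw [abs_le] at this ⊢
          push_cast
          constructor <;> omega
        have h8 : (m i - j) ^ 2 ≤ (((R + K : ℕ) : ℤ)) ^ 2 := sq_le_sq' (abs_le.mp h7).1 (abs_le.mp h7).2
        push_cast at *
        linarith
      have h6 := zpow_le_zpow_right_of_le_one₀ hρ0 hρ1 h5
      rw [zpow_natCast] at h6
      exact h6
    have h5 : ρ ^ (a i) * (ρ ^ (b j) * ‖ξ j‖) ≤ ρ ^ (a i) * (ρ ^ (b i) * ‖ξ i‖) :=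
      mul_le_mul_of_nonneg_left h3 (zpow_pos hρ0 _).le
    rw [hδ]
    linarith
  -- summation
  choose! i hi1 hi2 hi3 using hmain
  have hinj : Set.InjOn m U := by
    intro u hu v hv huv
    rcases lt_trichotomy u v with h | h | h
    · exact absurd (hm2 u hu v hv h) (by omega)
    · exact h
    · exact absurd (hm2 v hv u hu h) (by omega)
  have hW : ∑ u ∈ U, ‖row (m u)‖ ^ 2 ≤ ∑ v ∈ W, ‖row v‖ ^ 2 := by
    rw [← Finset.sum_image (f := fun v => ‖row v‖ ^ 2) (g := m) hinj]
    refine Finset.sum_le_sum_of_subset_of_nonneg ?_ fun _ _ _ => by positivity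
    intro v hv
    rw [Finset.mem_image] at hv
    obtain ⟨u, hu, rfl⟩ := hv
    exact (hm1 u hu).1
  have hsum : δ ^ 2 * ∑ j ∈ U, ‖ξ j‖ ^ 2 ≤ (2 * R + 1) * ∑ u ∈ U, ‖row (m u)‖ ^ 2 := by
    calc δ ^ 2 * ∑ j ∈ U, ‖ξ j‖ ^ 2 = ∑ j ∈ U, (δ * ‖ξ j‖) ^ 2 := by
          rw [Finset.mul_sum]
          exact Finset.sum_congr rfl fun j _ => by ring
      _ ≤ ∑ j ∈ U, ∑ u ∈ U, if |u - j| ≤ R then ‖row (m u)‖ ^ 2 else 0 := by
          refine Finset.sum_le_sum fun j hj => ?_
          have h1 : (δ * ‖ξ j‖) ^ 2 ≤ ‖row (m (i j))‖ ^ 2 :=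
            pow_le_pow_left₀ (by positivity) (hi3 j hj) 2
          have h2 : ‖row (m (i j))‖ ^ 2 =
              (if |i j - j| ≤ R then ‖row (m (i j))‖ ^ 2 else 0) := by
            rw [if_pos (hi2 j hj)]
          rw [h2] at h1
          refine le_trans h1 ?_
          exact Finset.single_le_sum (f := fun u => if |u - j| ≤ R then ‖row (m u)‖ ^ 2 else 0)
            (fun u _ => by positivity) (hi1 j hj)
      _ = ∑ u ∈ U, ∑ j ∈ U, if |u - j| ≤ R then ‖row (m u)‖ ^ 2 else 0 := Finset.sum_comm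
      _ ≤ ∑ u ∈ U, (2 * R + 1) * ‖row (m u)‖ ^ 2 := by
          refine Finset.sum_le_sum fun u _ => ?_
          rw [← Finset.sum_filter, Finset.sum_const, nsmul_eq_mul]
          refine mul_le_mul_of_nonneg_right ?_ (by positivity)
          have h1 : U.filter (fun j => |u - j| ≤ R) ⊆ Finset.Icc (u - R) (u + R) := by
            intro j hj
            rw [Finset.mem_filter, abs_le] at hj
            rw [Finset.mem_Icc]
            constructor <;> omega
          have h2 := Finset.card_le_card h1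
          rw [Int.card_Icc] at h2
          have h3 : (u + R + 1 - (u - R)).toNat = 2 * R + 1 := by omega
          rw [h3] at h2
          exact_mod_cast h2
      _ = (2 * R + 1) * ∑ u ∈ U, ‖row (m u)‖ ^ 2 := by rw [Finset.mul_sum]
  have hR : (0 : ℝ) < 2 * R + 1 := by positivity
  rw [div_mul_eq_mul_div, div_le_iff₀ hR]
  calc δ ^ 2 * ∑ j ∈ U, ‖ξ j‖ ^ 2 ≤ (2 * R + 1) * ∑ u ∈ U, ‖row (m u)‖ ^ 2 := hsum
    _ ≤ (2 * R + 1) * ∑ v ∈ W, ‖row v‖ ^ 2 := mul_le_mul_of_nonneg_left hW hR.le
    _ = (∑ v ∈ W, ‖row v‖ ^ 2) * (2 * R + 1) := mul_comm _ _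

end Pool.Agent.H12.RC
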